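import Mathlib

/-!
# MP_697cf1_co: both density thresholds for `mB + ℓB` fail, for every `m > ℓ ≥ 1`

`A` is the union of the intervals `(R^j + j, (k+1) R^j]` with `k = m/ℓ` and
`R = max (k(k+1)) ((k+1)^2/k)`.  For large `b` the three numbers `ℓb`, `mb`, `(m+ℓ)b`
(up to bounded shifts) are never all in `A`, and the upper density of `A` is larger than
`(k+1)/(k+2)`.
-/

namespace Pool.Agent.Results.MP_697cf1_co.BothThresholdsFail

open Filter Finset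

/-- The upper density `limsup |A ∩ {1,…,N}| / N`. -/
noncomputable def upperDensity (A : Set ℕ) : ℝ :=
  Filter.limsup (fun N : ℕ => (Set.ncard (A ∩ Set.Icc 1 N) : ℝ) / N) Filter.atTop

/-- `min (k²/(k²+k-1)) (k(k+1)/(k²+k+1))` for `k = m/ℓ`. -/
noncomputable def delta (m ℓ : ℕ) : ℝ :=
  min ((m : ℝ) ^ 2 / ((m : ℝ) ^ 2 + m * ℓ - (ℓ : ℝ) ^ 2))
    ((m : ℝ) * (m + ℓ) / ((m : ℝ) ^ 2 + m * ℓ + (ℓ : ℝ) ^ 2))

/-- The set: union of the intervals `(R^j + j, (k+1) R^j]`. -/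
def S (k R : ℝ) : Set ℕ := {n | ∃ j : ℕ, R ^ j + j < (n : ℝ) ∧ (n : ℝ) ≤ (k + 1) * R ^ j}

/-- Only multiples of `M` are restricted. -/
def E (k R : ℝ) (M : ℕ) : Set ℕ := {n | 1 ≤ n ∧ (M ∣ n → n ∈ S k R)}

lemma avoid {k R : ℝ} (hk : 1 < k) (h1 : k * (k + 1) ≤ R) (h2 : (k + 1) ^ 2 ≤ k * R)
    (s : ℕ) : ∃ X : ℝ, ∀ x : ℝ, X < x → ∀ n₁ n₂ n₃ : ℕ, x ≤ n₁ → (n₁ : ℝ) ≤ x + s →
      k * x ≤ n₂ → (n₂ : ℝ) ≤ k * x + s → (k + 1) * x ≤ n₃ → (n₃ : ℝ) ≤ (k + 1) * x + s →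
      n₁ ∈ S k R → n₂ ∈ S k R → n₃ ∈ S k R → False := by
  have hR : 1 < R := by nlinarith
  have hR0 : 0 < R := by linarith
  refine ⟨(k + 1) * R ^ s, ?_⟩
  rintro x hx n₁ n₂ n₃ a1 b1 a2 b2 a3 b3 ⟨j, hj1, hj2⟩ ⟨i, hi1, hi2⟩ ⟨l, hl1, hl2⟩
  -- `j > s`
  have hjs : s < j := by
    by_contra hcon
    have : R ^ j ≤ R ^ s := pow_le_pow_right₀ hR.le (by omega)
    have h3 : (k + 1) * R ^ j ≤ (k + 1) * R ^ s := by
      apply mul_le_mul_of_nonneg_left this; linarith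
    linarith
  have hjs' : (s : ℝ) + 1 ≤ j := by exact_mod_cast hjs
  have hRj : 0 < R ^ j := pow_pos hR0 j
  have hxl : R ^ j < x := by linarith
  have hxu : x ≤ (k + 1) * R ^ j := by linarith
  -- `i ≤ j`
  have hij : i ≤ j := by
    by_contra hcon
    have hcon' : j + 1 ≤ i := by omega
    have e1 : R ^ (j + 1) ≤ R ^ i := pow_le_pow_right₀ hR.le hcon'
    have e2 : ((j : ℝ) + 1) ≤ i := by exact_mod_cast hcon'
    have e3 : k * x ≤ R ^ (j + 1) := by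
      calc k * x ≤ k * ((k + 1) * R ^ j) := by
            apply mul_le_mul_of_nonneg_left hxu; linarith
        _ = (k * (k + 1)) * R ^ j := by ring
        _ ≤ R * R ^ j := by apply mul_le_mul_of_nonneg_right h1 hRj.le
        _ = R ^ (j + 1) := by ring
    linarith
  have e4 : k * x ≤ (k + 1) * R ^ j := by
    have : R ^ i ≤ R ^ j := pow_le_pow_right₀ hR.le hij
    have h3 : (k + 1) * R ^ i ≤ (k + 1) * R ^ j := by
      apply mul_le_mul_of_nonneg_left this; linarith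
    linarith
  -- `l > j`
  have hlj : j < l := by
    by_contra hcon
    have : R ^ l ≤ R ^ j := pow_le_pow_right₀ hR.le (by omega)
    have h3 : (k + 1) * R ^ l ≤ (k + 1) * R ^ j := by
      apply mul_le_mul_of_nonneg_left this; linarith
    have h4 : (k + 1) * R ^ j < (k + 1) * x := by
      apply mul_lt_mul_of_pos_left hxl; linarith
    linarith
  have e5 : R ^ (j + 1) ≤ R ^ l := pow_le_pow_right₀ hR.le hlj
  have e6 : ((j : ℝ) + 1) ≤ l := by exact_mod_cast hlj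
  have e7 : (k + 1) * x ≤ R ^ (j + 1) := by
    have hk0 : 0 < k := by linarith
    have : k * ((k + 1) * x) ≤ k * R ^ (j + 1) := by
      calc k * ((k + 1) * x) = (k + 1) * (k * x) := by ring
        _ ≤ (k + 1) * ((k + 1) * R ^ j) := by
            apply mul_le_mul_of_nonneg_left e4; linarith
        _ = (k + 1) ^ 2 * R ^ j := by ring
        _ ≤ (k * R) * R ^ j := by apply mul_le_mul_of_nonneg_right h2 hRj.le
        _ = k * R ^ (j + 1) := by ring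
    exact le_of_mul_le_mul_left this hk0
  linarith


lemma avoidE {m ℓ : ℕ} (hℓ : 1 ≤ ℓ) (hm : ℓ < m) {k R : ℝ} (hkdef : k = (m : ℝ) / ℓ)
    (h1 : k * (k + 1) ≤ R) (h2 : (k + 1) ^ 2 ≤ k * R) (M t : ℕ) (hM : 1 ≤ M)
    (hMm : M ∣ m + ℓ) (hMt : M ∣ t) (B : Set ℕ) (hB : B.Infinite) :
    ¬ ∀ b₁ ∈ B, ∀ b₂ ∈ B, m * b₁ + ℓ * b₂ + t ∈ E k R M := by
  intro hcon
  have hℓ0 : (0 : ℝ) < ℓ := by exact_mod_cast hℓ
  have hk : 1 < k := by
    rw [hkdef, lt_div_iff₀ hℓ0, one_mul]; exact_mod_cast hm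
  -- a residue class
  obtain ⟨r, hr⟩ : ∃ r : Fin M, (B ∩ {b | b % M = r}).Infinite := by
    by_contra hno
    push Not at hno
    apply hB
    have : B ⊆ ⋃ r : Fin M, (B ∩ {b | b % M = r}) := by
      intro b hb
      simp only [Set.mem_iUnion]
      exact ⟨⟨b % M, Nat.mod_lt _ hM⟩, hb, rfl⟩
    exact (Set.finite_iUnion (fun r => hno r)).subset this
  obtain ⟨b₁, hb₁⟩ := hr.nonempty
  obtain ⟨X, hX⟩ := avoid hk h1 h2 (m * b₁ + m * b₁ + t)
  obtain ⟨b, hb, hbX⟩ := hr.exists_gt ⌈X⌉₊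
  have hbX' : X < (b : ℝ) := lt_of_le_of_lt (Nat.le_ceil X) (by exact_mod_cast hbX)
  have hmod : b % M = b₁ % M := by rw [hb.2, hb₁.2]
  have hme : ∀ c d : ℕ, c % M = b₁ % M → d % M = b₁ % M → M ∣ m * c + ℓ * d + t := by
    intro c d hc hd
    have e1 : m * c + ℓ * d + t ≡ m * b₁ + ℓ * b₁ + 0 [MOD M] := by
      apply Nat.ModEq.add
      · apply Nat.ModEq.add
        · exact Nat.ModEq.mul_left m hc
        · exact Nat.ModEq.mul_left ℓ hd
      · exact (Nat.modEq_zero_iff_dvd.mpr hMt)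
    have e2 : M ∣ m * b₁ + ℓ * b₁ + 0 := by
      rw [add_zero, ← add_mul]; exact hMm.mul_right _
    exact (Nat.modEq_zero_iff_dvd.mp (e1.trans (Nat.modEq_zero_iff_dvd.mpr e2)))
  have hkl : k * (ℓ * b : ℝ) = m * b := by rw [hkdef]; field_simp
  have hlm : (ℓ : ℝ) ≤ m := by exact_mod_cast hm.le
  have hlb : (ℓ : ℝ) * b₁ ≤ m * b₁ := by
    apply mul_le_mul_of_nonneg_right hlm (Nat.cast_nonneg _)
  have hmb : (0 : ℝ) ≤ (m : ℝ) * b₁ := by positivity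
  have hlb0 : (0 : ℝ) ≤ (ℓ : ℝ) * b₁ := by positivity
  have ht0 : (0 : ℝ) ≤ (t : ℝ) := Nat.cast_nonneg _
  refine hX (ℓ * b : ℝ) ?_ (m * b₁ + ℓ * b + t) (m * b + ℓ * b₁ + t) (m * b + ℓ * b + t)
    ?_ ?_ ?_ ?_ ?_ ?_ ?_ ?_ ?_
  · have : (b : ℝ) ≤ ℓ * b := by
      have h1' : (1 : ℝ) ≤ ℓ := by exact_mod_cast hℓ
      have hb0 : (0 : ℝ) ≤ b := Nat.cast_nonneg _
      nlinarith
    linarith
  · push_cast; linarith
  · push_cast; linarith
  · push_cast; rw [hkl]; linarith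
  · push_cast; rw [hkl]; linarith
  · push_cast; rw [add_mul, hkl]; linarith
  · push_cast; rw [add_mul, hkl]; linarith
  · exact (hcon b₁ hb₁.1 b hb.1).2 (hme _ _ rfl hmod)
  · exact (hcon b hb.1 b₁ hb₁.1).2 (hme _ _ hmod rfl)
  · exact (hcon b hb.1 b hb.1).2 (hme _ _ hmod hmod)

open Classical in
/-- number of `1 ≤ n ≤ N` not in `E`. -/
noncomputable def bad (k R : ℝ) (M N : ℕ) : ℕ :=
  ((Finset.Icc 1 N).filter (fun n => M ∣ n ∧ n ∉ S k R)).card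

lemma card_mult (M a b : ℕ) (hM : 1 ≤ M) (hab : a ≤ b) :
    (((Finset.Ioc a b).filter (fun n => M ∣ n)).card : ℝ) ≤ ((b : ℝ) - a) / M + 1 := by
  have h0 : (((Finset.Ioc 0 a).filter (fun n => M ∣ n)).card) = a / M :=
    Nat.Ioc_filter_dvd_card_eq_div a M
  have h1 : (((Finset.Ioc 0 b).filter (fun n => M ∣ n)).card) = b / M :=
    Nat.Ioc_filter_dvd_card_eq_div b M
  have h2 : ((Finset.Ioc 0 a).filter (fun n => M ∣ n)).card
      + ((Finset.Ioc a b).filter (fun n => M ∣ n)).card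
      = ((Finset.Ioc 0 b).filter (fun n => M ∣ n)).card := by
    rw [← Finset.card_union_of_disjoint]
    · congr 1
      ext x
      simp only [Finset.mem_union, Finset.mem_filter, Finset.mem_Ioc]
      constructor
      · rintro (⟨⟨h, h'⟩, h''⟩ | ⟨⟨h, h'⟩, h''⟩)
        · exact ⟨⟨h, by omega⟩, h''⟩
        · exact ⟨⟨by omega, h'⟩, h''⟩
      · rintro ⟨⟨h, h'⟩, h''⟩
        by_cases hx : x ≤ a
        · exact Or.inl ⟨⟨h, hx⟩, h''⟩
        · exact Or.inr ⟨⟨by omega, h'⟩, h''⟩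
    · rw [Finset.disjoint_left]
      intro x hx hy
      simp only [Finset.mem_filter, Finset.mem_Ioc] at hx hy
      omega
  rw [h0, h1] at h2
  have hM0 : (0 : ℝ) < M := by exact_mod_cast hM
  have h3 : ((b / M : ℕ) : ℝ) ≤ (b : ℝ) / M := Nat.cast_div_le
  have h4 : (a : ℝ) / M ≤ ((a / M : ℕ) : ℝ) + 1 := by
    rw [div_le_iff₀ hM0]
    have := Nat.lt_div_mul_add (a := a) (b := M) hM
    have h5 : (a : ℝ) < (a / M : ℕ) * M + M := by exact_mod_cast this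
    linarith
  have h6 : ((a / M : ℕ) : ℝ) + (((Finset.Ioc a b).filter (fun n => M ∣ n)).card : ℝ)
      = ((b / M : ℕ) : ℝ) := by exact_mod_cast h2
  rw [sub_div]
  linarith

lemma bad_step {k R : ℝ} (hk : 1 < k) (hkR : k + 1 ≤ R) (M : ℕ) (hM : 1 ≤ M) (j : ℕ) :
    (bad k R M ⌊(k + 1) * R ^ (j + 1)⌋₊ : ℝ) ≤ bad k R M ⌊(k + 1) * R ^ j⌋₊
      + (R ^ (j + 1) - (k + 1) * R ^ j) / M + (j + 3) := by
  classical
  have hR : 1 < R := by linarith
  have hRj : 0 < R ^ j := by positivity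
  set a := ⌊(k + 1) * R ^ j⌋₊ with ha
  set c := ⌊R ^ (j + 1) + (j + 1)⌋₊ with hc
  have hle : (k + 1) * R ^ j ≤ R ^ (j + 1) + (j + 1) := by
    have : (k + 1) * R ^ j ≤ R * R ^ j := mul_le_mul_of_nonneg_right hkR hRj.le
    have h2 : R * R ^ j = R ^ (j + 1) := by ring
    have : (0 : ℝ) ≤ j := Nat.cast_nonneg _
    linarith
  have hac : a ≤ c := Nat.floor_le_floor hle
  have hsub : (Finset.Icc 1 ⌊(k + 1) * R ^ (j + 1)⌋₊).filter (fun n => M ∣ n ∧ n ∉ S k R)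
      ⊆ (Finset.Icc 1 a).filter (fun n => M ∣ n ∧ n ∉ S k R)
        ∪ (Finset.Ioc a c).filter (fun n => M ∣ n) := by
    intro n hn
    simp only [Finset.mem_filter, Finset.mem_Icc, Finset.mem_union, Finset.mem_Ioc] at hn ⊢
    obtain ⟨⟨h1, h2⟩, h3, h4⟩ := hn
    by_cases hna : n ≤ a
    · exact Or.inl ⟨⟨h1, hna⟩, h3, h4⟩
    · refine Or.inr ⟨⟨by omega, ?_⟩, h3⟩
      by_contra hcn
      apply h4
      refine ⟨j + 1, ?_, ?_⟩
      · have := Nat.lt_of_floor_lt (not_le.mp hcn)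
        push_cast
        exact this
      · exact (Nat.le_floor_iff (by positivity)).mp h2
  have hcard := (Finset.card_le_card hsub).trans (Finset.card_union_le _ _)
  have h1 : (bad k R M ⌊(k + 1) * R ^ (j + 1)⌋₊ : ℝ) ≤ bad k R M a
      + (((Finset.Ioc a c).filter (fun n => M ∣ n)).card : ℝ) := by
    unfold bad
    exact_mod_cast hcard
  have h2 := card_mult M a c hM hac
  have hc' : (c : ℝ) ≤ R ^ (j + 1) + (j + 1) := Nat.floor_le (by positivity)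
  have ha' : (k + 1) * R ^ j - 1 < a := Nat.sub_one_lt_floor _
  have hM1 : (1 : ℝ) ≤ M := by exact_mod_cast hM
  have h3 : ((c : ℝ) - a) / M ≤ (R ^ (j + 1) - (k + 1) * R ^ j) / M + (j + 2) := by
    have : ((c : ℝ) - a) ≤ (R ^ (j + 1) - (k + 1) * R ^ j) + (j + 2) := by linarith
    calc ((c : ℝ) - a) / M ≤ ((R ^ (j + 1) - (k + 1) * R ^ j) + (j + 2)) / M := by
          apply div_le_div_of_nonneg_right this; positivity
      _ = (R ^ (j + 1) - (k + 1) * R ^ j) / M + (j + 2) / M := by rw [add_div]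
      _ ≤ _ := by
        have : ((j : ℝ) + 2) / M ≤ j + 2 := div_le_self (by positivity) hM1
        linarith
  linarith

lemma bad_bound {k R : ℝ} (hk : 1 < k) (hkR : k + 1 ≤ R) (M : ℕ) (hM : 1 ≤ M) (j : ℕ) :
    (bad k R M ⌊(k + 1) * R ^ j⌋₊ : ℝ) ≤ (R - k - 1) / (M * (R - 1)) * R ^ j
      + ((j + 2) ^ 2 + (k + 1)) := by
  classical
  have hR : 1 < R := by linarith
  have hM1 : (0 : ℝ) < M := by exact_mod_cast hM
  have hR1 : 0 < R - 1 := by linarith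
  induction j with
  | zero =>
    have h1 : bad k R M ⌊(k + 1) * R ^ 0⌋₊ ≤ ⌊(k + 1) * R ^ 0⌋₊ := by
      unfold bad
      refine (Finset.card_filter_le _ _).trans ?_
      simp
    have h2 : ((⌊(k + 1) * R ^ 0⌋₊ : ℕ) : ℝ) ≤ (k + 1) * R ^ 0 :=
      Nat.floor_le (by positivity)
    have h3 : (bad k R M ⌊(k + 1) * R ^ 0⌋₊ : ℝ) ≤ ((⌊(k + 1) * R ^ 0⌋₊ : ℕ) : ℝ) := by
      exact_mod_cast h1
    have h4 : 0 ≤ (R - k - 1) / (M * (R - 1)) * R ^ 0 := by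
      have : 0 ≤ R - k - 1 := by linarith
      positivity
    simp only [pow_zero, mul_one] at h2 h3 h4 ⊢
    push_cast
    linarith
  | succ j ih =>
    have h := bad_step hk hkR M hM j
    have e : (R ^ (j + 1) - (k + 1) * R ^ j) / M
        = (R - k - 1) / (M * (R - 1)) * R ^ (j + 1) - (R - k - 1) / (M * (R - 1)) * R ^ j := by
      field_simp
      ring
    rw [e] at h
    push_cast
    have : (0 : ℝ) ≤ j := Nat.cast_nonneg _
    nlinarith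


lemma good_count (k R : ℝ) (M N : ℕ) :
    (N : ℝ) - bad k R M N ≤ (Set.ncard (E k R M ∩ Set.Icc 1 N) : ℝ) := by
  classical
  have h1 : E k R M ∩ Set.Icc 1 N
      = ((Finset.Icc 1 N).filter (fun n => ¬ (M ∣ n ∧ n ∉ S k R)) : Finset ℕ) := by
    ext n
    simp only [E, Set.mem_inter_iff, Set.mem_ofPred_eq, Set.mem_Icc, Finset.coe_filter,
      Finset.mem_Icc]
    constructor
    · rintro ⟨⟨h1, h2⟩, h3, h4⟩
      exact ⟨⟨h3, h4⟩, fun h5 => h5.2 (h2 h5.1)⟩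
    · rintro ⟨⟨h3, h4⟩, h5⟩
      exact ⟨⟨h3, fun h6 => by by_contra h7; exact h5 ⟨h6, h7⟩⟩, h3, h4⟩
  rw [h1, Set.ncard_coe_finset]
  have h2 := Finset.card_filter_add_card_filter_not (s := Finset.Icc 1 N)
    (fun n => M ∣ n ∧ n ∉ S k R)
  have h3 : ((Finset.Icc 1 N).card) = N := by simp
  rw [h3] at h2
  have h4 : (bad k R M N : ℝ)
      + (((Finset.Icc 1 N).filter (fun n => ¬ (M ∣ n ∧ n ∉ S k R))).card : ℝ) = N := by
    unfold bad
    exact_mod_cast h2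
  linarith

lemma density {k R : ℝ} (hk : 1 < k) (hkR : k + 1 ≤ R) (M : ℕ) (hM : 1 ≤ M) :
    1 - (R - k - 1) / (M * (R - 1)) / (k + 1) ≤ upperDensity (E k R M) := by
  have hR : 1 < R := by linarith
  have hM1 : (0 : ℝ) < M := by exact_mod_cast hM
  have hR1 : 0 < R - 1 := by linarith
  have hk0 : 0 < k + 1 := by linarith
  set α := (R - k - 1) / (M * (R - 1)) with hα
  have hα0 : 0 ≤ α := by
    have : 0 ≤ R - k - 1 := by linarith
    positivity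
  set Nj : ℕ → ℕ := fun j => ⌊(k + 1) * R ^ j⌋₊ with hNj
  have hNtop : Tendsto Nj atTop atTop := by
    apply tendsto_nat_floor_atTop.comp
    exact (tendsto_pow_atTop_atTop_of_one_lt hR).const_mul_atTop hk0
  -- lower bounds
  set g : ℕ → ℝ := fun j => 1 - (α * R ^ j + ((j + 2) ^ 2 + (k + 1))) / ((k + 1) * R ^ j - 1)
    with hg
  have hge : ∀ j : ℕ, g j ≤ (Set.ncard (E k R M ∩ Set.Icc 1 (Nj j)) : ℝ) / (Nj j : ℝ) := by
    intro j
    have hRj : 1 ≤ R ^ j := one_le_pow₀ hR.le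
    have hden : 0 < (k + 1) * R ^ j - 1 := by nlinarith
    have hN1 : (k + 1) * R ^ j - 1 < Nj j := Nat.sub_one_lt_floor _
    have hN0 : (0 : ℝ) < Nj j := hden.trans hN1
    have h1 := good_count k R M (Nj j)
    have h2 := bad_bound hk hkR M hM j
    have h3 : (bad k R M (Nj j) : ℝ) / (Nj j)
        ≤ (α * R ^ j + ((j + 2) ^ 2 + (k + 1))) / ((k + 1) * R ^ j - 1) := by
      apply div_le_div₀ _ h2 hden hN1.le
      positivity
    have h4 : ((Nj j : ℝ) - bad k R M (Nj j)) / (Nj j)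
        ≤ (Set.ncard (E k R M ∩ Set.Icc 1 (Nj j)) : ℝ) / (Nj j : ℝ) :=
      div_le_div_of_nonneg_right h1 hN0.le
    rw [sub_div, div_self hN0.ne'] at h4
    simp only [hg]
    linarith
  -- limit
  have hlim : Tendsto g atTop (nhds (1 - α / (k + 1))) := by
    have hRne : ∀ j : ℕ, R ^ j ≠ 0 := fun j => (pow_pos (by linarith) j).ne'
    have hinv : Tendsto (fun j : ℕ => (R ^ j)⁻¹) atTop (nhds 0) :=
      (tendsto_pow_atTop_atTop_of_one_lt hR).inv_tendsto_atTop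
    have hq : Tendsto (fun j : ℕ => ((j : ℝ) + 2) ^ 2 * (R ^ j)⁻¹) atTop (nhds 0) := by
      have a1 := tendsto_pow_const_div_const_pow_of_one_lt 2 hR
      have a2 := tendsto_pow_const_div_const_pow_of_one_lt 1 hR
      have a3 := (a1.add (a2.const_mul 4)).add (hinv.const_mul 4)
      simp only [mul_zero, add_zero] at a3
      refine a3.congr (fun j => ?_)
      have := hRne j
      field_simp
      ring
    have h1 : Tendsto (fun j : ℕ => 1 - (α + (((j : ℝ) + 2) ^ 2 * (R ^ j)⁻¹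
        + (k + 1) * (R ^ j)⁻¹)) / ((k + 1) - (R ^ j)⁻¹)) atTop
        (nhds (1 - (α + (0 + (k + 1) * 0)) / ((k + 1) - 0))) := by
      apply Tendsto.sub tendsto_const_nhds
      apply Tendsto.div
      · exact tendsto_const_nhds.add (hq.add (hinv.const_mul _))
      · exact tendsto_const_nhds.sub hinv
      · simpa using hk0.ne'
    simp only [mul_zero, add_zero, sub_zero] at h1
    refine h1.congr (fun j => ?_)
    have hRj : 1 ≤ R ^ j := one_le_pow₀ hR.le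
    have hden : 0 < (k + 1) * R ^ j - 1 := by nlinarith
    have := hRne j
    have hden2 : (k + 1) - (R ^ j)⁻¹ ≠ 0 := by
      intro h
      have : (k + 1) * R ^ j = 1 := by
        have h' : (k + 1) = (R ^ j)⁻¹ := by linarith
        rw [h']; field_simp
      linarith
    simp only [hg]
    congr 1
    rw [div_eq_div_iff hden2 hden.ne']
    field_simp
  unfold upperDensity
  apply le_of_forall_lt_imp_le_of_dense
  intro b hb
  apply le_limsup_of_frequently_le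
  · have h1 : ∀ᶠ j in atTop, b < g j := hlim.eventually (lt_mem_nhds hb)
    have h2 : ∃ᶠ j in atTop, b ≤ (Set.ncard (E k R M ∩ Set.Icc 1 (Nj j)) : ℝ) / (Nj j : ℝ) :=
      (h1.mono (fun j hj => hj.le.trans (hge j))).frequently
    exact hNtop.frequently h2
  · refine isBoundedUnder_of ⟨1, fun N => ?_⟩
    apply div_le_one_of_le₀ _ (Nat.cast_nonneg N)
    have h1 : (E k R M ∩ Set.Icc 1 N).ncard ≤ (Set.Icc 1 N).ncard :=
      Set.ncard_le_ncard Set.inter_subset_right (Set.finite_Icc 1 N)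
    have h2 : (Set.Icc 1 N).ncard = N := by
      rw [← Finset.coe_Icc, Set.ncard_coe_finset]; simp
    rw [h2] at h1
    exact_mod_cast h1

/-- the growth ratio -/
noncomputable def Rat (k : ℝ) : ℝ := max (k * (k + 1)) ((k + 1) ^ 2 / k)

lemma delta_le (m ℓ : ℕ) (hℓ : 1 ≤ ℓ) (hm : ℓ < m) (M : ℕ) (hM : 1 ≤ M) :
    1 - (1 - delta m ℓ) / M ≤ upperDensity (E ((m : ℝ) / ℓ) (Rat ((m : ℝ) / ℓ)) M) := by
  have hℓ0 : (0 : ℝ) < ℓ := by exact_mod_cast hℓ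
  have hmℓ : (ℓ : ℝ) < m := by exact_mod_cast hm
  have hm0 : (0 : ℝ) < m := hℓ0.trans hmℓ
  have hM0 : (0 : ℝ) < M := by exact_mod_cast hM
  set k : ℝ := (m : ℝ) / ℓ with hk
  have hk1 : 1 < k := by rw [hk, lt_div_iff₀ hℓ0, one_mul]; exact hmℓ
  have hR : k + 1 ≤ Rat k := by
    refine le_trans ?_ (le_max_left _ _)
    nlinarith
  have h := density hk1 hR M hM
  refine le_trans ?_ h
  have hR1 : 0 < Rat k - 1 := by linarith
  have key : 1 - delta m ℓ ≥ (Rat k - k - 1) / ((Rat k - 1) * (k + 1)) := by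
    rcases max_cases (k * (k + 1)) ((k + 1) ^ 2 / k) with ⟨h1, _⟩ | ⟨h1, _⟩
    · have hRk : Rat k = k * (k + 1) := h1
      have h2 : delta m ℓ ≤ (m : ℝ) ^ 2 / ((m : ℝ) ^ 2 + m * ℓ - (ℓ : ℝ) ^ 2) := min_le_left _ _
      have hpos : 0 < (m : ℝ) ^ 2 + m * ℓ - (ℓ : ℝ) ^ 2 := by nlinarith
      have h3 : 1 - (m : ℝ) ^ 2 / ((m : ℝ) ^ 2 + m * ℓ - (ℓ : ℝ) ^ 2)
          = (Rat k - k - 1) / ((Rat k - 1) * (k + 1)) := by
        rw [hRk, hk]
        have hp2 : (m : ℝ) / ℓ * ((m : ℝ) / ℓ + 1) - 1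
            = ((m : ℝ) ^ 2 + m * ℓ - (ℓ : ℝ) ^ 2) / ℓ ^ 2 := by
          field_simp
        rw [hp2]
        obtain ⟨D, hD⟩ : ∃ D : ℝ, D = (m : ℝ) ^ 2 + m * ℓ - (ℓ : ℝ) ^ 2 := ⟨_, rfl⟩
        rw [← hD] at hpos ⊢
        have hDne : D ≠ 0 := hpos.ne'
        field_simp
        rw [hD]
        ring
      linarith
    · have hRk : Rat k = (k + 1) ^ 2 / k := h1
      have h2 : delta m ℓ ≤ (m : ℝ) * (m + ℓ) / ((m : ℝ) ^ 2 + m * ℓ + (ℓ : ℝ) ^ 2) :=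
        min_le_right _ _
      have hpos : 0 < (m : ℝ) ^ 2 + m * ℓ + (ℓ : ℝ) ^ 2 := by positivity
      have h3 : 1 - (m : ℝ) * (m + ℓ) / ((m : ℝ) ^ 2 + m * ℓ + (ℓ : ℝ) ^ 2)
          = (Rat k - k - 1) / ((Rat k - 1) * (k + 1)) := by
        rw [hRk, hk]
        have hp2 : ((m : ℝ) / ℓ + 1) ^ 2 / ((m : ℝ) / ℓ) - 1
            = ((m : ℝ) ^ 2 + m * ℓ + (ℓ : ℝ) ^ 2) / (m * ℓ) := by
          field_simp
          ring
        rw [hp2]
        field_simp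
        ring
      linarith
  have e : (Rat k - k - 1) / (M * (Rat k - 1)) / (k + 1)
      = (Rat k - k - 1) / ((Rat k - 1) * (k + 1)) / M := by
    have : k + 1 ≠ 0 := by linarith
    field_simp
  rw [e]
  have : (Rat k - k - 1) / ((Rat k - 1) * (k + 1)) / M ≤ (1 - delta m ℓ) / M :=
    div_le_div_of_nonneg_right key hM0.le
  linarith

lemma lt_delta (m ℓ : ℕ) (hℓ : 1 ≤ ℓ) (hm : ℓ < m) :
    ((m : ℝ) + ℓ) / (m + 2 * ℓ) < delta m ℓ := by
  have hℓ0 : (0 : ℝ) < ℓ := by exact_mod_cast hℓ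
  have hmℓ : (ℓ : ℝ) < m := by exact_mod_cast hm
  have hm0 : (0 : ℝ) < m := hℓ0.trans hmℓ
  apply lt_min
  · have hpos : 0 < (m : ℝ) ^ 2 + m * ℓ - (ℓ : ℝ) ^ 2 := by nlinarith
    rw [div_lt_div_iff₀ (by positivity) hpos]
    have : 0 < (ℓ : ℝ) ^ 3 := by positivity
    nlinarith
  · rw [div_lt_div_iff₀ (by positivity) (by positivity)]
    have : 0 < ((m : ℝ) + ℓ) * ℓ * (m - ℓ) := by
      have : (0 : ℝ) < m - ℓ := by linarith
      positivity
    nlinarith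

/-- Both thresholds fail for every `m > ℓ ≥ 1`.  With `k = m/ℓ` and
`δ = delta m ℓ = min (k²/(k²+k-1)) (k(k+1)/(k²+k+1))` we have `δ > (k+1)/(k+2)`, there is a set of
upper density at least `δ` containing no `mB + ℓB + t` with `B` infinite, and there is a set of
upper density at least `1 - (1-δ)/(m+ℓ) > 1 - 1/(ℓ(k+1)(k+2))` containing no `mB + ℓB` with `B`
infinite. -/
theorem result (m ℓ : ℕ) (hℓ : 1 ≤ ℓ) (hm : ℓ < m) :
    (((m : ℝ) + ℓ) / (m + 2 * ℓ) < delta m ℓ ∧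
      ∃ A : Set ℕ, (∀ n ∈ A, 1 ≤ n) ∧ delta m ℓ ≤ upperDensity A ∧
        ∀ B : Set ℕ, B.Infinite → ∀ t : ℕ,
          ¬ ∀ b₁ ∈ B, ∀ b₂ ∈ B, m * b₁ + ℓ * b₂ + t ∈ A) ∧
    (1 - (ℓ : ℝ) / ((m + ℓ) * (m + 2 * ℓ)) < 1 - (1 - delta m ℓ) / (m + ℓ) ∧
      ∃ A : Set ℕ, (∀ n ∈ A, 1 ≤ n) ∧ 1 - (1 - delta m ℓ) / (m + ℓ) ≤ upperDensity A ∧
        ∀ B : Set ℕ, B.Infinite → ¬ ∀ b₁ ∈ B, ∀ b₂ ∈ B, m * b₁ + ℓ * b₂ ∈ A) := by
  have hℓ0 : (0 : ℝ) < ℓ := by exact_mod_cast hℓ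
  have hmℓ : (ℓ : ℝ) < m := by exact_mod_cast hm
  have hk1 : 1 < (m : ℝ) / ℓ := by rw [lt_div_iff₀ hℓ0, one_mul]; exact hmℓ
  have h1 : (m : ℝ) / ℓ * ((m : ℝ) / ℓ + 1) ≤ Rat ((m : ℝ) / ℓ) := le_max_left _ _
  have h2 : ((m : ℝ) / ℓ + 1) ^ 2 ≤ (m : ℝ) / ℓ * Rat ((m : ℝ) / ℓ) := by
    have h3 : ((m : ℝ) / ℓ + 1) ^ 2 / ((m : ℝ) / ℓ) ≤ Rat ((m : ℝ) / ℓ) := le_max_right _ _
    have h4 : 0 < (m : ℝ) / ℓ := by linarith
    rw [div_le_iff₀ h4] at h3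
    linarith
  have hd := lt_delta m ℓ hℓ hm
  refine ⟨⟨hd, E ((m : ℝ) / ℓ) (Rat ((m : ℝ) / ℓ)) 1, fun n hn => hn.1, ?_, ?_⟩,
    ?_, E ((m : ℝ) / ℓ) (Rat ((m : ℝ) / ℓ)) (m + ℓ), fun n hn => hn.1, ?_, ?_⟩
  · have := delta_le m ℓ hℓ hm 1 le_rfl
    simpa using this
  · intro B hB t
    exact avoidE hℓ hm rfl h1 h2 1 t le_rfl (one_dvd _) (one_dvd _) B hB
  · have hpos : (0 : ℝ) < m + ℓ := by linarith
    have e : (ℓ : ℝ) / ((m + ℓ) * (m + 2 * ℓ))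
        = (1 - ((m : ℝ) + ℓ) / (m + 2 * ℓ)) / (m + ℓ) := by
      have : (0 : ℝ) < m + 2 * ℓ := by linarith
      field_simp
      ring
    rw [e]
    have := div_lt_div_of_pos_right (show 1 - delta m ℓ < 1 - ((m : ℝ) + ℓ) / (m + 2 * ℓ) by
      linarith) hpos
    linarith
  · have := delta_le m ℓ hℓ hm (m + ℓ) (by omega)
    push_cast at this
    exact this
  · intro B hB
    have := avoidE hℓ hm rfl h1 h2 (m + ℓ) 0 (by omega) dvd_rfl (dvd_zero _) B hB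
    simpa using this

end Pool.Agent.Results.MP_697cf1_co.BothThresholdsFail
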